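import Mathlib

set_option autoImplicit false

open Set MeasureTheory Real
open scoped ENNReal NNReal

namespace Pool.Agent.Helper11_Segments

/-- The point with abscissa `x = p.2` on the line of slope `σ = p.1` and intercept `B σ`. -/
noncomputable def Phi (B : ℝ → ℝ) (p : ℝ × ℝ) : ℝ × ℝ := (p.2, p.1 * p.2 + B p.1)

/-- The derivative of `Phi`. -/
noncomputable def Phi' (B : ℝ → ℝ) (p : ℝ × ℝ) : ℝ × ℝ →L[ℝ] ℝ × ℝ :=
  (Matrix.toLin (.finTwoProd ℝ) (.finTwoProd ℝ)
    !![0, 1; p.2 + deriv B p.1, p.1]).toContinuousLinearMap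

theorem hasFDerivAt_Phi (B : ℝ → ℝ) (p : ℝ × ℝ) (h : DifferentiableAt ℝ B p.1) :
    HasFDerivAt (Phi B) (Phi' B p) p := by
  unfold Phi'
  rw [Matrix.toLin_finTwoProd_toContinuousLinearMap]
  have h1 : HasFDerivAt (fun p : ℝ × ℝ => p.1 * p.2)
      (p.1 • ContinuousLinearMap.snd ℝ ℝ ℝ + p.2 • ContinuousLinearMap.fst ℝ ℝ ℝ) p :=
    hasFDerivAt_fst.mul hasFDerivAt_snd
  have h2 : HasFDerivAt (fun p : ℝ × ℝ => B p.1) (deriv B p.1 • ContinuousLinearMap.fst ℝ ℝ ℝ) p :=
    HasDerivAt.comp_hasFDerivAt (h₂ := B) (f := fun p : ℝ × ℝ => p.1) p h.hasDerivAt hasFDerivAt_fst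
  have h3 := HasFDerivAt.prodMk (𝕜 := ℝ) (hasFDerivAt_snd (𝕜 := ℝ) (E := ℝ) (F := ℝ) (p := p)) (h1.add h2)
  convert! h3 using 2
  · simp
  · simp [add_smul]
    abel

theorem det_Phi' (B : ℝ → ℝ) (p : ℝ × ℝ) : (Phi' B p).det = -(p.2 + deriv B p.1) := by
  unfold Phi'
  simp only [LinearMap.det_toContinuousLinearMap, LinearMap.det_toLin, Matrix.det_fin_two_of]
  ring

/-- The half-width allowed at slope `σ`. -/
noncomputable def wid (d σ : ℝ) : ℝ := d / √(1 + σ ^ 2)

theorem lintegral_abs_wid (w : ℝ) (hw : 0 ≤ w) (c : ℝ) :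
    ∫⁻ x : ℝ, {x : ℝ | |x + c| ≤ w}.indicator (fun x => ENNReal.ofReal |x + c|) x
      = ENNReal.ofReal (w ^ 2) := by
  have h1 : ∫⁻ x : ℝ, {x : ℝ | |x + c| ≤ w}.indicator (fun x => ENNReal.ofReal |x + c|) x
      = ∫⁻ x : ℝ, {x : ℝ | |x| ≤ w}.indicator (fun x => ENNReal.ofReal |x|) x := by
    exact lintegral_add_right_eq_self
      (fun x => {x : ℝ | |x| ≤ w}.indicator (fun x => ENNReal.ofReal |x|) x) c
  rw [h1]
  have h2 : {x : ℝ | |x| ≤ w} = Icc (-w) w := by ext x; simp [abs_le]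
  rw [h2, lintegral_indicator measurableSet_Icc, ← ofReal_integral_eq_lintegral_ofReal]
  · congr 1
    rw [integral_Icc_eq_integral_Ioc, ← intervalIntegral.integral_of_le (by linarith)]
    have h3 : ∫ x in (-w)..w, |x| = (∫ x in (-w)..0, |x|) + ∫ x in (0 : ℝ)..w, |x| := by
      rw [intervalIntegral.integral_add_adjacent_intervals] <;>
      exact (continuous_abs.intervalIntegrable _ _)
    have h4 : ∫ x in (-w)..0, |x| = ∫ x in (-w)..0, -x := by
      refine intervalIntegral.integral_congr fun x hx => ?_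
      rw [uIcc_of_le (by linarith)] at hx
      exact abs_of_nonpos hx.2
    have h5 : ∫ x in (0 : ℝ)..w, |x| = ∫ x in (0 : ℝ)..w, x := by
      refine intervalIntegral.integral_congr fun x hx => ?_
      rw [uIcc_of_le (by linarith)] at hx
      exact abs_of_nonneg hx.1
    rw [h3, h4, h5, intervalIntegral.integral_neg, integral_id, integral_id]
    ring
  · exact (continuous_abs.integrableOn_Icc)
  · exact Filter.Eventually.of_forall fun x => abs_nonneg x

/-- The area swept by the admissible parts of the lines `y = σ x + B σ`. -/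
theorem volume_Phi_image_le (B : ℝ → ℝ) (d : ℝ) (hd : 0 ≤ d) :
    volume (Phi B '' {p : ℝ × ℝ | DifferentiableAt ℝ B p.1 ∧ |p.2 + deriv B p.1| ≤ wid d p.1})
      ≤ ENNReal.ofReal (π * d ^ 2) := by
  set E : Set (ℝ × ℝ) := {p : ℝ × ℝ | DifferentiableAt ℝ B p.1 ∧ |p.2 + deriv B p.1| ≤ wid d p.1}
    with hE
  have hwm : Measurable (wid d) := by unfold wid; fun_prop
  have hdm : Measurable (deriv B) := measurable_deriv B
  have hEm : MeasurableSet E := by
    refine MeasurableSet.inter ?_ ?_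
    · exact (measurableSet_of_differentiableAt ℝ B).preimage measurable_fst
    · exact measurableSet_le (f := fun p : ℝ × ℝ => |p.2 + deriv B p.1|)
        (g := fun p : ℝ × ℝ => wid d p.1) (by fun_prop) (by fun_prop)
  have h1 := addHaar_image_le_lintegral_abs_det_fderiv (volume : Measure (ℝ × ℝ)) (f := Phi B)
    (f' := Phi' B) hEm (fun p hp => (hasFDerivAt_Phi B p hp.1).hasFDerivWithinAt)
  refine h1.trans ?_
  simp_rw [det_Phi', abs_neg]
  have hw0 : ∀ σ, 0 ≤ wid d σ := fun σ => by unfold wid; positivity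
  calc ∫⁻ p in E, ENNReal.ofReal |p.2 + deriv B p.1|
      ≤ ∫⁻ p : ℝ × ℝ, {p : ℝ × ℝ | |p.2 + deriv B p.1| ≤ wid d p.1}.indicator
          (fun p => ENNReal.ofReal |p.2 + deriv B p.1|) p := by
        rw [← lintegral_indicator hEm]
        refine lintegral_mono fun p => ?_
        refine indicator_le_indicator_of_subset (fun p hp => hp.2) (fun _ => zero_le) p
    _ = ∫⁻ σ : ℝ, ∫⁻ x : ℝ, {p : ℝ × ℝ | |p.2 + deriv B p.1| ≤ wid d p.1}.indicator
          (fun p => ENNReal.ofReal |p.2 + deriv B p.1|) (σ, x) := by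
        rw [Measure.volume_eq_prod, lintegral_prod]
        refine (Measurable.indicator (by fun_prop) ?_).aemeasurable
        exact measurableSet_le (by fun_prop) (by fun_prop)
    _ = ∫⁻ σ : ℝ, ENNReal.ofReal ((wid d σ) ^ 2) := by
        refine lintegral_congr fun σ => ?_
        rw [← lintegral_abs_wid (wid d σ) (hw0 σ) (deriv B σ)]
        rfl
    _ = ENNReal.ofReal (π * d ^ 2) := by
        have h2 : ∀ σ : ℝ, (wid d σ) ^ 2 = d ^ 2 * (1 + σ ^ 2)⁻¹ := fun σ => by
          unfold wid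
          rw [div_pow, Real.sq_sqrt (by positivity)]
          rfl
        simp_rw [h2]
        rw [← ofReal_integral_eq_lintegral_ofReal (integrable_inv_one_add_sq.const_mul _)
          (Filter.Eventually.of_forall fun σ => by positivity), integral_const_mul,
          integral_univ_inv_one_add_sq, mul_comm]

end Pool.Agent.Helper11_Segments
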