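import Mathlib

set_option autoImplicit false

open Set

namespace Pool.Agent.Helper11_Segments

/-- Mirsky's theorem for a transitive relation: a set without chains of `k + 1` elements is covered by
`k` antichains. -/
theorem mirsky {α : Type*} (r : α → α → Prop) (htr : ∀ a b c, r a b → r b c → r a c) :
    ∀ (k : ℕ) (G : Set α),
      (¬ ∃ f : Fin (k + 1) → α, (∀ i, f i ∈ G) ∧ ∀ i j, i < j → r (f i) (f j)) →
      ∃ c : Fin k → Set α, G ⊆ ⋃ i, c i ∧ (∀ i, c i ⊆ G) ∧
        ∀ i, ∀ g ∈ c i, ∀ g' ∈ c i, ¬ r g g' := by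
  intro k
  induction k with
  | zero =>
    intro G hG
    have hGe : G = ∅ := by
      by_contra hne
      obtain ⟨g, hg⟩ := nonempty_iff_ne_empty.mpr hne
      exact hG ⟨fun _ => g, fun _ => hg, fun i j hij => by
        have := i.2; have := j.2
        exact absurd hij (by rw [Fin.lt_def]; omega)⟩
    exact ⟨fun i => ∅, by simp [hGe], by simp, by simp⟩
  | succ k ih =>
    intro G hG
    set M : Set α := {g ∈ G | ∀ g' ∈ G, ¬ r g' g} with hM
    have hG' : ¬ ∃ f : Fin (k + 1) → α, (∀ i, f i ∈ G \ M) ∧ ∀ i j, i < j → r (f i) (f j) := by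
      rintro ⟨f, hf, hfr⟩
      have h0 := hf 0
      have h1 : ∃ g' ∈ G, r g' (f 0) := by
        by_contra hcon
        push_neg at hcon
        exact h0.2 ⟨h0.1, hcon⟩
      obtain ⟨g', hg', hr⟩ := h1
      apply hG
      refine ⟨Fin.cons g' f, ?_, ?_⟩
      · intro i
        refine Fin.cases ?_ (fun j => ?_) i
        · simpa using hg'
        · simpa using (hf j).1
      · intro i j hij
        have hrj : ∀ j, r g' (f j) := fun j => by
          rcases eq_or_ne j 0 with rfl | hj
          · exact hr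
          · exact htr _ _ _ hr (hfr 0 j (Fin.pos_iff_ne_zero.mpr hj))
        revert hij
        refine Fin.cases ?_ (fun i => ?_) i
        · refine Fin.cases ?_ (fun j => ?_) j
          · intro h; exact absurd h (lt_irrefl _)
          · intro _; simpa using hrj j
        · refine Fin.cases ?_ (fun j => ?_) j
          · intro h; exact absurd h (Fin.not_lt_zero _)
          · intro h; simpa using hfr i j (by simpa using h)
    obtain ⟨c, hc1, hc2, hc3⟩ := ih (G \ M) hG'
    refine ⟨Fin.cons M c, ?_, ?_, ?_⟩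
    · intro g hg
      by_cases hgM : g ∈ M
      · exact mem_iUnion.mpr ⟨0, by simpa using hgM⟩
      · obtain ⟨i, hi⟩ := mem_iUnion.mp (hc1 ⟨hg, hgM⟩)
        exact mem_iUnion.mpr ⟨i.succ, by simpa using hi⟩
    · intro i
      refine Fin.cases ?_ (fun j => ?_) i
      · simp only [Fin.cons_zero]; exact fun g hg => hg.1
      · simp only [Fin.cons_succ]; exact (hc2 j).trans diff_subset
    · intro i
      refine Fin.cases ?_ (fun j => ?_) i
      · simp only [Fin.cons_zero]
        intro g hg g' hg'
        exact hg'.2 g hg.1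
      · simp only [Fin.cons_succ]
        exact hc3 j

/-- A subset of the plane in which any two points satisfy a Lipschitz condition is contained in the
graph of a Lipschitz function. -/
theorem exists_lipschitz (L : NNReal) (c : Set (ℝ × ℝ))
    (hc : ∀ g ∈ c, ∀ g' ∈ c, |g.2 - g'.2| ≤ L * |g.1 - g'.1|) :
    ∃ B : ℝ → ℝ, LipschitzWith L B ∧ ∀ g ∈ c, g.2 = B g.1 := by
  classical
  have hch : ∀ σ ∈ Prod.fst '' c, ∃ b, (σ, b) ∈ c := by
    rintro σ ⟨g, hg, rfl⟩
    exact ⟨g.2, hg⟩
  choose! f hf using hch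
  have hL : LipschitzOnWith L f (Prod.fst '' c) := by
    refine LipschitzOnWith.of_dist_le_mul fun x hx y hy => ?_
    have := hc _ (hf x hx) _ (hf y hy)
    simpa [Real.dist_eq] using this
  obtain ⟨B, hB, hBe⟩ := hL.extend_real
  refine ⟨B, hB, fun g hg => ?_⟩
  have hg1 : g.1 ∈ Prod.fst '' c := ⟨g, hg, rfl⟩
  rw [← hBe hg1]
  have := hc g hg _ (hf g.1 hg1)
  simp only [sub_self, abs_zero, mul_zero] at this
  have h2 := abs_nonpos_iff.mp this
  linarith

end Pool.Agent.Helper11_Segments
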