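import Mathlib
import Pool.Agent.Helper11_Segments.Mirsky
import Pool.Agent.Helper11_Segments.Area

set_option autoImplicit false

open Set MeasureTheory Real
open scoped ENNReal NNReal

namespace Pool.Agent.Helper11_Segments

/-- A non-vertical segment: slope `m`, intercept `b`, abscissae between `t` and `u`. -/
structure Ndl where
  m : ℝ
  b : ℝ
  t : ℝ
  u : ℝ

/-- The point set of a non-vertical segment. -/
def Ndl.seg (s : Ndl) : Set (ℝ × ℝ) := {p | s.t ≤ p.1 ∧ p.1 ≤ s.u ∧ p.2 = s.m * p.1 + s.b}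

/-- No `k + 1` members are pairwise disjoint. -/
def NuLe (G : Set Ndl) (k : ℕ) : Prop :=
  ∀ T : Finset Ndl, (T : Set Ndl) ⊆ G →
    (T : Set Ndl).Pairwise (fun s t => Disjoint s.seg t.seg) → T.card ≤ k

theorem bad_countable (B : ℝ → ℝ) (G : Set Ndl) (k : ℕ) (hk : NuLe G k) :
    {σ : ℝ | DifferentiableAt ℝ B σ ∧ ∃ s ∈ G, s.m = σ ∧ s.b = B σ ∧
      ¬ (s.t ≤ -deriv B σ ∧ -deriv B σ ≤ s.u)}.Countable := by
  classical
  set Bad := {σ : ℝ | DifferentiableAt ℝ B σ ∧ ∃ s ∈ G, s.m = σ ∧ s.b = B σ ∧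
      ¬ (s.t ≤ -deriv B σ ∧ -deriv B σ ≤ s.u)} with hBad
  have hch : ∀ σ : ℝ, ∃ s : Ndl, σ ∈ Bad → (s ∈ G ∧ s.m = σ ∧ s.b = B σ ∧
      ¬ (s.t ≤ -deriv B σ ∧ -deriv B σ ≤ s.u)) := by
    intro σ
    by_cases h : σ ∈ Bad
    · obtain ⟨-, s, hs⟩ := h
      exact ⟨s, fun _ => hs⟩
    · exact ⟨⟨0, 0, 0, 0⟩, fun h' => absurd h' h⟩
  choose s hs using hch
  set P : ℕ → ℝ → Prop := fun m σ => ∀ τ, τ ≠ σ → |τ - σ| < 1 / ((m : ℝ) + 1) →
    ¬ ((s σ).t ≤ -(slope B σ τ) ∧ -(slope B σ τ) ≤ (s σ).u) with hP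
  have hPex : ∀ σ ∈ Bad, ∃ m : ℕ, P m σ := by
    intro σ hσ
    have hd := hσ.1.hasDerivAt
    have hsl := (hasDerivAt_iff_tendsto_slope.mp hd).neg
    have hopen : IsOpen (Icc (s σ).t (s σ).u)ᶜ := isClosed_Icc.isOpen_compl
    have hmem : -deriv B σ ∈ (Icc (s σ).t (s σ).u)ᶜ := fun h => (hs σ hσ).2.2.2 ⟨h.1, h.2⟩
    have hev := hsl.eventually (hopen.mem_nhds hmem)
    rw [eventually_nhdsWithin_iff, Metric.eventually_nhds_iff] at hev
    obtain ⟨ε, hε, hball⟩ := hev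
    obtain ⟨m, hm⟩ := exists_nat_one_div_lt hε
    refine ⟨m, fun τ hτ hτσ hcon => ?_⟩
    exact hball (y := τ) (by rw [Real.dist_eq]; exact hτσ.trans hm) hτ ⟨hcon.1, hcon.2⟩
  have hcover : Bad ⊆ ⋃ m : ℕ, ⋃ j : ℤ, {σ | σ ∈ Bad ∧ P m σ ∧ ⌊σ * ((m : ℝ) + 1)⌋ = j} := by
    intro σ hσ
    obtain ⟨m, hm⟩ := hPex σ hσ
    exact mem_iUnion.mpr ⟨m, mem_iUnion.mpr ⟨_, hσ, hm, rfl⟩⟩
  refine Countable.mono hcover (countable_iUnion fun m => countable_iUnion fun j => ?_)
  refine Set.Finite.countable ?_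
  by_contra hinf
  have hinf' : {σ | σ ∈ Bad ∧ P m σ ∧ ⌊σ * ((m : ℝ) + 1)⌋ = j}.Infinite := hinf
  obtain ⟨T, hT, hTc⟩ := hinf'.exists_subset_card_eq (k + 1)
  have hinj : InjOn s (T : Set ℝ) := by
    intro x hx y hy hxy
    have h1 := (hs x (hT hx).1).2.1
    have h2 := (hs y (hT hy).1).2.1
    rw [← h1, ← h2, hxy]
  have hle := hk (T.image s) (by
    intro y hy
    simp only [Finset.coe_image, mem_image, Finset.mem_coe] at hy
    obtain ⟨x, hx, rfl⟩ := hy
    exact (hs x (hT hx).1).1) (by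
    intro y hy z hz hyz
    simp only [Finset.coe_image, mem_image, Finset.mem_coe] at hy hz
    obtain ⟨x, hx, rfl⟩ := hy
    obtain ⟨w, hw, rfl⟩ := hz
    have hxw : w ≠ x := fun h => hyz (by rw [h])
    rw [Set.disjoint_left]
    rintro p ⟨hp1, hp2, hp3⟩ ⟨hq1, hq2, hq3⟩
    have hxT := hT hx
    have hwT := hT hw
    have hpos : (0 : ℝ) < (m : ℝ) + 1 := by positivity
    have hdist : |w - x| < 1 / ((m : ℝ) + 1) := by
      have h1 : ⌊w * ((m : ℝ) + 1)⌋ = ⌊x * ((m : ℝ) + 1)⌋ := by rw [hwT.2.2, hxT.2.2]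
      have h2 := Int.abs_sub_lt_one_of_floor_eq_floor h1
      rw [← sub_mul, abs_mul, abs_of_pos hpos] at h2
      rwa [lt_div_iff₀ hpos]
    apply hxT.2.1 w hxw hdist
    have e1 := hs x hxT.1
    have e2 := hs w hwT.1
    rw [e1.2.1, e1.2.2.1] at hp3
    rw [e2.2.1, e2.2.2.1] at hq3
    have hsl : -(slope B x w) = p.1 := by
      rw [slope_def_field]
      have : w - x ≠ 0 := sub_ne_zero.mpr hxw
      field_simp
      linarith
    rw [hsl]
    exact ⟨hp1, hp2⟩)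
  rw [Finset.card_image_of_injOn hinj, hTc] at hle
  omega

/-- The image of a null set of slopes is null. -/
theorem volume_Phi_null (B : ℝ → ℝ) (L R : ℝ≥0) (hB : LipschitzWith L B) (Z : Set ℝ)
    (hZ : volume Z = 0) (hZR : Z ⊆ Icc (-(R : ℝ)) R) :
    volume (Phi B '' (Z ×ˢ Icc (-(R : ℝ)) R)) = 0 := by
  have hL : LipschitzOnWith (2 * R + L + 1) (Phi B) (Z ×ˢ Icc (-(R : ℝ)) R) := by
    refine LipschitzOnWith.of_dist_le_mul fun p hp q hq => ?_
    have hp1 := hZR hp.1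
    have hq2 := hq.2
    have hp1' : |p.1| ≤ R := abs_le.mpr hp1
    have hq2' : |q.2| ≤ R := abs_le.mpr hq2
    have hR := R.coe_nonneg
    have hL0 := L.coe_nonneg
    have d1 : |p.1 - q.1| ≤ dist p q := by rw [Prod.dist_eq, ← Real.dist_eq]; exact le_max_left _ _
    have d2 : |p.2 - q.2| ≤ dist p q := by rw [Prod.dist_eq, ← Real.dist_eq]; exact le_max_right _ _
    have hBd : |B p.1 - B q.1| ≤ L * |p.1 - q.1| := by
      simpa [Real.dist_eq] using hB.dist_le_mul p.1 q.1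
    have hd0 : 0 ≤ dist p q := dist_nonneg
    rw [Prod.dist_eq]
    push_cast
    refine max_le ?_ ?_
    · simp only [Phi, Real.dist_eq]
      nlinarith
    · simp only [Phi, Real.dist_eq]
      have e : p.1 * p.2 + B p.1 - (q.1 * q.2 + B q.1)
          = p.1 * (p.2 - q.2) + q.2 * (p.1 - q.1) + (B p.1 - B q.1) := by ring
      rw [e]
      calc |p.1 * (p.2 - q.2) + q.2 * (p.1 - q.1) + (B p.1 - B q.1)|
          ≤ |p.1 * (p.2 - q.2)| + |q.2 * (p.1 - q.1)| + |B p.1 - B q.1| := by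
            refine (abs_add_le _ _).trans ?_
            gcongr
            exact abs_add_le _ _
        _ ≤ R * dist p q + R * dist p q + L * dist p q := by
            rw [abs_mul, abs_mul]
            gcongr
            exact hBd.trans (by gcongr)
        _ ≤ (2 * R + L + 1) * dist p q := by nlinarith
  have h1 := hL.hausdorffMeasure_image_le (d := 2) (by norm_num)
  rw [hausdorffMeasure_prod_real] at h1
  have h2 : volume (Z ×ˢ Icc (-(R : ℝ)) R) = 0 := by
    rw [Measure.volume_eq_prod, Measure.prod_prod, hZ, zero_mul]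
  rw [h2, mul_zero] at h1
  exact le_antisymm h1 (zero_le)

/-- The bounded case of the segment theorem. -/
theorem volume_bounded (G : Set Ndl) (k : ℕ) (hk : NuLe G k) (R : ℝ≥0) (d : ℝ) (hd : 0 ≤ d)
    (h1 : ∀ s ∈ G, |s.m| ≤ R) (h2 : ∀ s ∈ G, ∀ p ∈ s.seg, |p.1| ≤ R)
    (h3 : ∀ s ∈ G, s.u - s.t ≤ wid d s.m) :
    volume (⋃ s ∈ G, s.seg) ≤ k * ENNReal.ofReal (π * d ^ 2) := by
  classical
  set r : ℝ × ℝ → ℝ × ℝ → Prop := fun g g' => (R : ℝ) * |g.1 - g'.1| < g'.2 - g.2 with hr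
  have hR := R.coe_nonneg
  have htr : ∀ a b c, r a b → r b c → r a c := by
    intro a b c hab hbc
    simp only [hr] at *
    have := abs_sub_le a.1 b.1 c.1
    nlinarith
  set Ln : Set (ℝ × ℝ) := (fun s : Ndl => (s.m, s.b)) '' G with hLn
  have hchain : ¬ ∃ f : Fin (k + 1) → ℝ × ℝ, (∀ i, f i ∈ Ln) ∧ ∀ i j, i < j → r (f i) (f j) := by
    rintro ⟨f, hf, hfr⟩
    choose s hsG hsf using hf
    have hirr : ∀ a, ¬ r a a := fun a h => by simp [hr] at h
    have hinj : Function.Injective s := by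
      intro i j hij
      by_contra hne
      rcases lt_or_gt_of_ne hne with h | h
      · have := hfr i j h; rw [← hsf i, ← hsf j, hij] at this; exact hirr _ this
      · have := hfr j i h; rw [← hsf i, ← hsf j, hij] at this; exact hirr _ this
    have hdis : ∀ i j, i < j → Disjoint (s i).seg (s j).seg := by
      intro i j hij
      have h := hfr i j hij
      rw [← hsf i, ← hsf j] at h
      simp only [hr] at h
      rw [Set.disjoint_left]
      rintro p ⟨hp1, hp2, hp3⟩ hq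
      have hpR := h2 (s j) (hsG j) p hq
      obtain ⟨hq1, hq2, hq3⟩ := hq
      have e : (s j).b - (s i).b = ((s i).m - (s j).m) * p.1 := by linarith
      have : ((s i).m - (s j).m) * p.1 ≤ |(s i).m - (s j).m| * R := by
        refine (le_abs_self _).trans ?_
        rw [abs_mul]; gcongr
      nlinarith
    have hle := hk (Finset.univ.image s) (by
      intro y hy
      simp only [Finset.coe_image, Finset.coe_univ, image_univ, mem_range] at hy
      obtain ⟨i, rfl⟩ := hy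
      exact hsG i) (by
      intro y hy z hz hyz
      simp only [Finset.coe_image, Finset.coe_univ, image_univ, mem_range] at hy hz
      obtain ⟨i, rfl⟩ := hy
      obtain ⟨j, rfl⟩ := hz
      have hij : i ≠ j := fun h => hyz (by rw [h])
      rcases lt_or_gt_of_ne hij with h | h
      · exact hdis i j h
      · exact (hdis j i h).symm)
    rw [Finset.card_image_of_injective _ hinj, Finset.card_univ, Fintype.card_fin] at hle
    omega
  obtain ⟨c, hc1, hc2, hc3⟩ := mirsky r htr k Ln hchain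
  have hlip : ∀ i, ∀ g ∈ c i, ∀ g' ∈ c i, |g.2 - g'.2| ≤ R * |g.1 - g'.1| := by
    intro i g hg g' hg'
    have h1 := hc3 i g hg g' hg'
    have h2 := hc3 i g' hg' g hg
    simp only [hr, not_lt] at h1 h2
    rw [abs_sub_comm g'.1] at h2
    exact abs_le.mpr ⟨by linarith, by linarith⟩
  choose B hB hBg using fun i => exists_lipschitz R (c i) (hlip i)
  set Bad : Fin k → Set ℝ := fun i => {σ : ℝ | DifferentiableAt ℝ (B i) σ ∧ ∃ s ∈ G, s.m = σ ∧
    s.b = B i σ ∧ ¬ (s.t ≤ -deriv (B i) σ ∧ -deriv (B i) σ ≤ s.u)} with hBad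
  set Z : Fin k → Set ℝ := fun i =>
    ({σ | ¬ DifferentiableAt ℝ (B i) σ} ∪ Bad i) ∩ Icc (-(R : ℝ)) R with hZ
  have hZ0 : ∀ i, volume (Z i) = 0 := by
    intro i
    refine measure_mono_null inter_subset_left (measure_union_null ?_ ?_)
    · exact (hB i).ae_differentiableAt_real
    · exact (bad_countable (B i) G k hk).measure_zero _
  have hcov : (⋃ s ∈ G, s.seg) ⊆ ⋃ i : Fin k,
      (Phi (B i) '' {p : ℝ × ℝ | DifferentiableAt ℝ (B i) p.1 ∧
          |p.2 + deriv (B i) p.1| ≤ wid d p.1}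
        ∪ Phi (B i) '' (Z i ×ˢ Icc (-(R : ℝ)) R)) := by
    intro p hp
    simp only [mem_iUnion] at hp
    obtain ⟨s, hs, hps⟩ := hp
    have hsL : (s.m, s.b) ∈ Ln := ⟨s, hs, rfl⟩
    obtain ⟨i, hi⟩ := mem_iUnion.mp (hc1 hsL)
    have hb : s.b = B i s.m := hBg i _ hi
    refine mem_iUnion.mpr ⟨i, ?_⟩
    have hpP : p = Phi (B i) (s.m, p.1) := by
      refine Prod.ext rfl ?_
      simp only [Phi]
      rw [hps.2.2, hb]
    have hpR := abs_le.mp (h2 s hs p hps)
    have hmR := abs_le.mp (h1 s hs)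
    by_cases hgood : DifferentiableAt ℝ (B i) s.m ∧ s.m ∉ Bad i
    · left
      refine ⟨(s.m, p.1), ⟨hgood.1, ?_⟩, hpP.symm⟩
      have h4 : s.t ≤ -deriv (B i) s.m ∧ -deriv (B i) s.m ≤ s.u := by
        by_contra hcon
        exact hgood.2 ⟨hgood.1, s, hs, rfl, hb, hcon⟩
      have h5 := h3 s hs
      obtain ⟨hq1, hq2, -⟩ := hps
      simp only
      exact abs_le.mpr ⟨by linarith [h4.1, h4.2], by linarith [h4.1, h4.2]⟩
    · right
      refine ⟨(s.m, p.1), ⟨⟨?_, hmR⟩, hpR⟩, hpP.symm⟩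
      by_cases hdi : DifferentiableAt ℝ (B i) s.m
      · right
        by_contra hcon
        exact hgood ⟨hdi, hcon⟩
      · left; exact hdi
  calc volume (⋃ s ∈ G, s.seg) ≤ volume (⋃ i : Fin k,
      (Phi (B i) '' {p : ℝ × ℝ | DifferentiableAt ℝ (B i) p.1 ∧
          |p.2 + deriv (B i) p.1| ≤ wid d p.1}
        ∪ Phi (B i) '' (Z i ×ˢ Icc (-(R : ℝ)) R))) := measure_mono hcov
    _ ≤ ∑ i : Fin k, volume (Phi (B i) '' {p : ℝ × ℝ | DifferentiableAt ℝ (B i) p.1 ∧
          |p.2 + deriv (B i) p.1| ≤ wid d p.1}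
        ∪ Phi (B i) '' (Z i ×ˢ Icc (-(R : ℝ)) R)) := measure_iUnion_fintype_le _ _
    _ ≤ ∑ i : Fin k, ENNReal.ofReal (π * d ^ 2) := by
        refine Finset.sum_le_sum fun i _ => ?_
        refine (measure_union_le _ _).trans ?_
        rw [volume_Phi_null (B i) R R (hB i) (Z i) (hZ0 i) inter_subset_right, add_zero]
        exact volume_Phi_image_le (B i) d hd
    _ = k * ENNReal.ofReal (π * d ^ 2) := by simp

end Pool.Agent.Helper11_Segments
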