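import Mathlib
import Pool.Agent.Helper11_Segments.Bounded

set_option autoImplicit false

open Set MeasureTheory Real
open scoped ENNReal NNReal

namespace Pool.Agent.Helper11_Segments

/-- The non-vertical segment with endpoints `p`, `q`. -/
noncomputable def ndl (p q : ℝ × ℝ) : Ndl where
  m := (q.2 - p.2) / (q.1 - p.1)
  b := p.2 - (q.2 - p.2) / (q.1 - p.1) * p.1
  t := min p.1 q.1
  u := max p.1 q.1

theorem seg_ndl (p q : ℝ × ℝ) (h : p.1 ≠ q.1) : (ndl p q).seg = segment ℝ p q := by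
  have hne : q.1 - p.1 ≠ 0 := sub_ne_zero.mpr (Ne.symm h)
  ext z
  rw [segment_eq_image']
  constructor
  · rintro ⟨h1, h2, h3⟩
    simp only [ndl] at h1 h2 h3
    refine ⟨(z.1 - p.1) / (q.1 - p.1), ⟨?_, ?_⟩, ?_⟩
    · rcases lt_or_gt_of_ne h with h' | h'
      · rw [min_eq_left h'.le] at h1
        exact div_nonneg (by linarith) (by linarith)
      · rw [max_eq_left h'.le] at h2
        exact div_nonneg_of_nonpos (by linarith) (by linarith)
    · rcases lt_or_gt_of_ne h with h' | h'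
      · rw [max_eq_right h'.le] at h2
        rw [div_le_one (by linarith)]; linarith
      · rw [min_eq_right h'.le] at h1
        rw [div_le_one_of_neg (by linarith)]; linarith
    · refine Prod.ext ?_ ?_
      · simp only [Prod.fst_add, Prod.smul_fst, Prod.fst_sub, smul_eq_mul]
        field_simp; ring
      · simp only [Prod.snd_add, Prod.smul_snd, Prod.snd_sub, smul_eq_mul]
        rw [h3]; field_simp; ring
  · rintro ⟨θ, ⟨h0, h1⟩, rfl⟩
    refine ⟨?_, ?_, ?_⟩
    · simp only [ndl, Prod.fst_add, Prod.smul_fst, Prod.fst_sub, smul_eq_mul]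
      rcases lt_or_gt_of_ne h with h' | h'
      · rw [min_eq_left h'.le]; nlinarith
      · rw [min_eq_right h'.le]; nlinarith
    · simp only [ndl, Prod.fst_add, Prod.smul_fst, Prod.fst_sub, smul_eq_mul]
      rcases lt_or_gt_of_ne h with h' | h'
      · rw [max_eq_right h'.le]; nlinarith
      · rw [max_eq_left h'.le]; nlinarith
    · simp only [ndl, Prod.fst_add, Prod.smul_fst, Prod.fst_sub, Prod.snd_add, Prod.smul_snd,
        Prod.snd_sub, smul_eq_mul]
      field_simp; ring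

theorem width_ndl (p q : ℝ × ℝ) (h : p.1 ≠ q.1) (d : ℝ) (hd : 0 ≤ d)
    (hpq : (q.1 - p.1) ^ 2 + (q.2 - p.2) ^ 2 ≤ d ^ 2) :
    (ndl p q).u - (ndl p q).t ≤ wid d (ndl p q).m := by
  have hne : q.1 - p.1 ≠ 0 := sub_ne_zero.mpr (Ne.symm h)
  simp only [ndl, wid]
  rw [le_div_iff₀ (by positivity)]
  have h1 : max p.1 q.1 - min p.1 q.1 = |q.1 - p.1| := by
    rw [max_sub_min_eq_abs]
  rw [h1]
  have h2 : (|q.1 - p.1| * √(1 + ((q.2 - p.2) / (q.1 - p.1)) ^ 2)) ^ 2 ≤ d ^ 2 := by
    rw [mul_pow, sq_abs, Real.sq_sqrt (by positivity)]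
    have : (q.1 - p.1) ^ 2 * (1 + ((q.2 - p.2) / (q.1 - p.1)) ^ 2)
        = (q.1 - p.1) ^ 2 + (q.2 - p.2) ^ 2 := by field_simp
    rw [this]; exact hpq
  exact (sq_le_sq₀ (by positivity) hd).mp h2

/-- The coordinate identification of the Euclidean plane with `ℝ × ℝ`. -/
noncomputable def coord : EuclideanSpace ℝ (Fin 2) ≃ᵐ ℝ × ℝ :=
  (MeasurableEquiv.toLp 2 (Fin 2 → ℝ)).symm.trans MeasurableEquiv.finTwoArrow

theorem coord_apply (x : EuclideanSpace ℝ (Fin 2)) : coord x = (x 0, x 1) := rfl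

theorem measurePreserving_coord : MeasurePreserving coord :=
  (volume_preserving_finTwoArrow ℝ).comp
    (EuclideanSpace.volume_preserving_symm_measurableEquiv_toLp (Fin 2))

theorem volume_coord_image (S : Set (EuclideanSpace ℝ (Fin 2))) :
    volume (coord '' S) = volume S := by
  rw [← measurePreserving_coord.measure_preimage_equiv, preimage_image_eq _ coord.injective]

theorem coord_segment (x y : EuclideanSpace ℝ (Fin 2)) :
    coord '' segment ℝ x y = segment ℝ (coord x) (coord y) := by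
  ext z
  rw [segment_eq_image', segment_eq_image', image_image]
  constructor
  · rintro ⟨θ, hθ, rfl⟩
    exact ⟨θ, hθ, rfl⟩
  · rintro ⟨θ, hθ, rfl⟩
    exact ⟨θ, hθ, rfl⟩

/-- **Segment theorem.** If a family of segments of length at most `d` in the plane has no `k + 1`
pairwise disjoint members, its union has area at most `k π d ^ 2`. -/
theorem volume_union_segments (d : ℝ) (k : ℕ)
    (F : Set (EuclideanSpace ℝ (Fin 2) × EuclideanSpace ℝ (Fin 2)))
    (hlen : ∀ s ∈ F, dist s.1 s.2 ≤ d)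
    (hk : ∀ T : Finset (EuclideanSpace ℝ (Fin 2) × EuclideanSpace ℝ (Fin 2)), ↑T ⊆ F →
      (T : Set (EuclideanSpace ℝ (Fin 2) × EuclideanSpace ℝ (Fin 2))).Pairwise
        (fun s t => Disjoint (segment ℝ s.1 s.2) (segment ℝ t.1 t.2)) → T.card ≤ k) :
    volume (⋃ s ∈ F, segment ℝ s.1 s.2) ≤ ENNReal.ofReal (k * (π * d ^ 2)) := by
  classical
  rcases F.eq_empty_or_nonempty with rfl | ⟨s₀, hs₀⟩
  · simp
  have hd : 0 ≤ d := dist_nonneg.trans (hlen s₀ hs₀)
  -- non-vertical members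
  set FN : Set (EuclideanSpace ℝ (Fin 2) × EuclideanSpace ℝ (Fin 2)) :=
    {s ∈ F | (coord s.1).1 ≠ (coord s.2).1} with hFN
  set FV : Set (EuclideanSpace ℝ (Fin 2) × EuclideanSpace ℝ (Fin 2)) :=
    {s ∈ F | (coord s.1).1 = (coord s.2).1} with hFV
  set G : Set Ndl := (fun s : EuclideanSpace ℝ (Fin 2) × EuclideanSpace ℝ (Fin 2) =>
    ndl (coord s.1) (coord s.2)) '' FN with hG
  have hsegim : ∀ s ∈ FN, (ndl (coord s.1) (coord s.2)).seg = coord '' segment ℝ s.1 s.2 := by
    intro s hs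
    rw [seg_ndl _ _ hs.2, coord_segment]
  have hGk : NuLe G k := by
    intro T hT hTp
    have hch : ∀ g : Ndl, ∃ s : EuclideanSpace ℝ (Fin 2) × EuclideanSpace ℝ (Fin 2),
        g ∈ T → s ∈ FN ∧ ndl (coord s.1) (coord s.2) = g := by
      intro g
      by_cases hg : g ∈ T
      · obtain ⟨s, hs, hsg⟩ := hT hg
        exact ⟨s, fun _ => ⟨hs, hsg⟩⟩
      · exact ⟨s₀, fun h => absurd h hg⟩
    choose φ hφ using hch
    have hinj : InjOn φ (T : Set Ndl) := by
      intro g hg g' hg' h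
      rw [← (hφ g hg).2, ← (hφ g' hg').2, h]
    have := hk (T.image φ) (by
      intro y hy
      simp only [Finset.coe_image, mem_image, Finset.mem_coe] at hy
      obtain ⟨g, hg, rfl⟩ := hy
      exact (hφ g hg).1.1) (by
      intro y hy z hz hyz
      simp only [Finset.coe_image, mem_image, Finset.mem_coe] at hy hz
      obtain ⟨g, hg, rfl⟩ := hy
      obtain ⟨g', hg', rfl⟩ := hz
      have hgg : g ≠ g' := fun h => hyz (by rw [h])
      have hd := hTp hg hg' hgg
      rw [← (hφ g hg).2, ← (hφ g' hg').2, hsegim _ (hφ g hg).1, hsegim _ (hφ g' hg').1] at hd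
      exact (disjoint_image_iff coord.injective).mp hd)
    rwa [Finset.card_image_of_injOn hinj] at this
  -- exhaustion by bounded families
  set GN : ℕ → Set Ndl := fun N => {g ∈ G | |g.m| ≤ N ∧ ∀ p ∈ g.seg, |p.1| ≤ N} with hGN
  have hGNk : ∀ N, NuLe (GN N) k := fun N T hT hTp => hGk T (hT.trans fun g hg => hg.1) hTp
  have hwid : ∀ g ∈ G, g.u - g.t ≤ wid d g.m := by
    rintro g ⟨s, hs, rfl⟩
    refine width_ndl _ _ hs.2 d hd ?_
    have h1 := hlen s hs.1
    have h2 : dist s.1 s.2 ^ 2 ≤ d ^ 2 := by gcongr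
    rw [EuclideanSpace.dist_eq, Real.sq_sqrt (by positivity), Fin.sum_univ_two, Real.dist_eq,
      Real.dist_eq, sq_abs, sq_abs] at h2
    simp only [coord_apply]
    nlinarith
  have hbd : ∀ N : ℕ, volume (⋃ g ∈ GN N, g.seg) ≤ k * ENNReal.ofReal (π * d ^ 2) := by
    intro N
    refine volume_bounded (GN N) k (hGNk N) (N : ℝ≥0) d hd ?_ ?_ ?_
    · intro g hg; simpa using hg.2.1
    · intro g hg p hp; simpa using hg.2.2 p hp
    · intro g hg; exact hwid g hg.1
  have hmono : Monotone fun N : ℕ => ⋃ g ∈ GN N, g.seg := by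
    intro N M hNM
    refine biUnion_subset_biUnion_left fun g hg => ⟨hg.1, ?_, ?_⟩
    · exact hg.2.1.trans (by exact_mod_cast hNM)
    · intro p hp; exact (hg.2.2 p hp).trans (by exact_mod_cast hNM)
  have hNv : volume (⋃ N : ℕ, ⋃ g ∈ GN N, g.seg) ≤ k * ENNReal.ofReal (π * d ^ 2) := by
    rw [hmono.measure_iUnion]
    exact iSup_le hbd
  -- vertical members
  set X : Set ℝ := (fun s : EuclideanSpace ℝ (Fin 2) × EuclideanSpace ℝ (Fin 2) =>
    (coord s.1).1) '' FV with hX
  have hXfin : X.Finite := by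
    by_contra hinf
    have hinf' : X.Infinite := hinf
    obtain ⟨T, hT, hTc⟩ := hinf'.exists_subset_card_eq (k + 1)
    have hch : ∀ x : ℝ, ∃ s : EuclideanSpace ℝ (Fin 2) × EuclideanSpace ℝ (Fin 2),
        x ∈ T → s ∈ FV ∧ (coord s.1).1 = x := by
      intro x
      by_cases hx : x ∈ T
      · obtain ⟨s, hs, hsx⟩ := hT hx
        exact ⟨s, fun _ => ⟨hs, hsx⟩⟩
      · exact ⟨s₀, fun h => absurd h hx⟩
    choose φ hφ using hch
    have hinj : InjOn φ (T : Set ℝ) := by
      intro x hx x' hx' h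
      rw [← (hφ x hx).2, ← (hφ x' hx').2, h]
    have hall : ∀ s ∈ FV, ∀ z ∈ segment ℝ s.1 s.2, (coord z).1 = (coord s.1).1 := by
      intro s hs z hz
      rw [segment_eq_image'] at hz
      obtain ⟨θ, -, rfl⟩ := hz
      have := hs.2
      simp only [coord_apply] at this ⊢
      simp [this]
    have := hk (T.image φ) (by
      intro y hy
      simp only [Finset.coe_image, mem_image, Finset.mem_coe] at hy
      obtain ⟨x, hx, rfl⟩ := hy
      exact (hφ x hx).1.1) (by
      intro y hy z hz hyz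
      simp only [Finset.coe_image, mem_image, Finset.mem_coe] at hy hz
      obtain ⟨x, hx, rfl⟩ := hy
      obtain ⟨x', hx', rfl⟩ := hz
      have hxx : x ≠ x' := fun h => hyz (by rw [h])
      rw [Set.disjoint_left]
      intro w hw hw'
      have e1 := hall _ (hφ x hx).1 w hw
      have e2 := hall _ (hφ x' hx').1 w hw'
      rw [(hφ x hx).2] at e1
      rw [(hφ x' hx').2] at e2
      exact hxx (e1.symm.trans e2))
    rw [Finset.card_image_of_injOn hinj, hTc] at this
    omega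
  have hcov : coord '' (⋃ s ∈ F, segment ℝ s.1 s.2) ⊆
      (⋃ N : ℕ, ⋃ g ∈ GN N, g.seg) ∪ X ×ˢ univ := by
    rintro _ ⟨z, hz, rfl⟩
    simp only [mem_iUnion] at hz
    obtain ⟨s, hs, hzs⟩ := hz
    by_cases hv : (coord s.1).1 = (coord s.2).1
    · right
      refine ⟨⟨s, ⟨hs, hv⟩, ?_⟩, mem_univ _⟩
      rw [segment_eq_image'] at hzs
      obtain ⟨θ, -, rfl⟩ := hzs
      simp only [coord_apply] at hv ⊢
      simp [hv]
    · left
      have hsN : s ∈ FN := ⟨hs, hv⟩
      set g := ndl (coord s.1) (coord s.2) with hg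
      have hgG : g ∈ G := ⟨s, hsN, rfl⟩
      obtain ⟨N, hN⟩ := exists_nat_ge (max |g.m| (max |g.t| |g.u|))
      refine mem_iUnion.mpr ⟨N, ?_⟩
      simp only [mem_iUnion]
      refine ⟨g, ⟨hgG, (le_max_left _ _).trans hN, ?_⟩, ?_⟩
      · intro p hp
        have h1 : |g.t| ≤ N := ((le_max_left _ _).trans (le_max_right _ _)).trans hN
        have h2 : |g.u| ≤ N := ((le_max_right _ _).trans (le_max_right _ _)).trans hN
        have h1' := abs_le.mp h1
        have h2' := abs_le.mp h2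
        exact abs_le.mpr ⟨by linarith [hp.1], by linarith [hp.2.1]⟩
      · rw [hg, hsegim s hsN]
        exact mem_image_of_mem _ hzs
  calc volume (⋃ s ∈ F, segment ℝ s.1 s.2)
      = volume (coord '' (⋃ s ∈ F, segment ℝ s.1 s.2)) := (volume_coord_image _).symm
    _ ≤ volume ((⋃ N : ℕ, ⋃ g ∈ GN N, g.seg) ∪ X ×ˢ univ) := measure_mono hcov
    _ ≤ volume (⋃ N : ℕ, ⋃ g ∈ GN N, g.seg) + volume (X ×ˢ (univ : Set ℝ)) := measure_union_le _ _
    _ = volume (⋃ N : ℕ, ⋃ g ∈ GN N, g.seg) := by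
        rw [Measure.volume_eq_prod, Measure.prod_prod, hXfin.measure_zero, zero_mul, add_zero]
    _ ≤ k * ENNReal.ofReal (π * d ^ 2) := hNv
    _ = ENNReal.ofReal (k * (π * d ^ 2)) := by
        rw [ENNReal.ofReal_mul (p := (k : ℝ)) (by positivity), ENNReal.ofReal_natCast]

end Pool.Agent.Helper11_Segments
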